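import Mathlib

/-!
# Signs and operators on the functions on `(ZMod 2)^n`
-/

namespace MP6489b8.MD

/-- The sign character of `ZMod 2`. -/
def chi (x : ZMod 2) : ℤ := if x = 0 then 1 else -1

theorem chi_zero : chi 0 = 1 := rfl

theorem chi_one : chi 1 = -1 := rfl

theorem chi_add (x y : ZMod 2) : chi (x + y) = chi x * chi y := by
  revert x y; decide

theorem chi_mul_self (x : ZMod 2) : chi x * chi x = 1 := by
  revert x; decide

theorem chi_add_one (x : ZMod 2) : chi (x + 1) = -chi x := by
  revert x; decide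

/-- Vectors. -/
abbrev Vec (n : ℕ) : Type := Fin n → ZMod 2

theorem Vec.add_self {n : ℕ} (y : Vec n) : y + y = 0 := by
  funext i
  exact CharTwo.add_self_eq_zero (y i)

variable {n : ℕ}

/-- The indicator of the letters below `a`. -/
def lo (a : Fin n) : Vec n := fun c => if c < a then 1 else 0

/-- The indicator of the letters at least `a`. -/
def hi (a : Fin n) : Vec n := fun c => if a ≤ c then 1 else 0

theorem lo_add_one (a : Fin n) : lo a + 1 = hi a := by
  funext c
  by_cases h : c < a
  · have h' : ¬ a ≤ c := not_le.2 h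
    simp only [Pi.add_apply, Pi.one_apply, lo, hi, if_pos h, if_neg h']
    decide
  · have h' : a ≤ c := not_lt.1 h
    simp only [Pi.add_apply, Pi.one_apply, lo, hi, if_neg h, if_pos h', zero_add]

section Op

variable {K : Type} [CommRing K]

/-- The operators `P_a`. -/
def P (K : Type) [CommRing K] (a : Fin n) : Module.End K (Vec n → K) where
  toFun ψ := fun β => ((chi (β a) : ℤ) : K) * ψ (β + lo a)
  map_add' ψ φ := by funext β; simp only [Pi.add_apply, mul_add]
  map_smul' c ψ := by
    funext β; simp only [Pi.smul_apply, smul_eq_mul, RingHom.id_apply]; ring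

/-- The parity operator. -/
def eps (K : Type) [CommRing K] (n : ℕ) : Module.End K (Vec n → K) where
  toFun ψ := fun β => ψ (β + 1)
  map_add' _ _ := rfl
  map_smul' _ _ := rfl

theorem P_apply (a : Fin n) (ψ : Vec n → K) (β : Vec n) :
    P K a ψ β = ((chi (β a) : ℤ) : K) * ψ (β + lo a) := rfl

theorem eps_apply (ψ : Vec n → K) (β : Vec n) : eps K n ψ β = ψ (β + 1) := rfl

theorem eps_mul_self : eps K n * eps K n = 1 := by
  refine LinearMap.ext fun ψ => funext fun β => ?_
  change ψ (β + 1 + 1) = ψ β
  rw [add_assoc, Vec.add_self, add_zero]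

theorem eps_P (a : Fin n) : eps K n * P K a = -(P K a * eps K n) := by
  refine LinearMap.ext fun ψ => funext fun β => ?_
  change ((chi ((β + 1) a) : ℤ) : K) * ψ (β + 1 + lo a) =
    -(((chi (β a) : ℤ) : K) * ψ (β + lo a + 1))
  rw [Pi.add_apply, Pi.one_apply, chi_add_one, add_right_comm]
  push_cast
  ring

theorem P_P {a b : Fin n} (h : a ≠ b) : P K a * P K b = -(P K b * P K a) := by
  refine LinearMap.ext fun ψ => funext fun β => ?_
  change ((chi (β a) : ℤ) : K) * (((chi ((β + lo a) b) : ℤ) : K) * ψ (β + lo a + lo b)) =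
    -(((chi (β b) : ℤ) : K) * (((chi ((β + lo b) a) : ℤ) : K) * ψ (β + lo b + lo a)))
  rw [Pi.add_apply, Pi.add_apply, add_right_comm, chi_add, chi_add, lo, lo]
  rcases lt_or_gt_of_ne h with h' | h'
  · rw [if_neg (not_lt.2 h'.le), if_pos h', chi_zero, chi_one]
    push_cast; ring
  · rw [if_neg (not_lt.2 (le_of_lt h')), if_pos h', chi_zero, chi_one]
    push_cast; ring

theorem P_eps_apply (a : Fin n) (ψ : Vec n → K) (β : Vec n) :
    (P K a * eps K n) ψ β = ((chi (β a) : ℤ) : K) * ψ (β + hi a) := by
  change ((chi (β a) : ℤ) : K) * ψ (β + lo a + 1) = _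
  rw [add_assoc, lo_add_one]

end Op

end MP6489b8.MD
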