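import Mathlib
import Pool.Agent.Lib.MP_6489b8_al.MD.Vec

/-!
# A Gauss sum congruence

`ι` finite, `q : (ι → ZMod 2) → ZMod 2` quadratic with polarization given by `G`: then the Gauss
sum `∑ chi (q y)` is congruent to `w ^ card ι * #(ker G)` modulo `w ^ (card ι + 1)` in `ℤ[√-2]`,
`w = √-2`.
-/

set_option autoImplicit false
open Finset

namespace MP6489b8.MD

lemma chi_sum {ι : Type*} (s : Finset ι) (f : ι → ZMod 2) :
    chi (∑ i ∈ s, f i) = ∏ i ∈ s, chi (f i) := by
  classical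
  induction s using Finset.induction_on with
  | empty => simp [chi_zero]
  | insert a s ha ih => rw [sum_insert ha, prod_insert ha, chi_add, ih]

/-- orthogonality -/
lemma sum_chi {ι : Type*} [Fintype ι] [DecidableEq ι] (v : ι → ZMod 2) :
    ∑ y : ι → ZMod 2, chi (∑ i, y i * v i) = if v = 0 then 2 ^ Fintype.card ι else 0 := by
  split_ifs with h
  · subst h
    simp [chi_zero, ZMod.card]
  · obtain ⟨j, hj⟩ : ∃ j, v j ≠ 0 := by
      by_contra hc
      exact h (funext fun j => not_not.1 fun hj => hc ⟨j, hj⟩)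
    have hj1 : v j = 1 := by
      revert hj; generalize v j = t; revert t; decide
    let e : ι → ZMod 2 := Pi.single j 1
    have h1 : ∑ y : ι → ZMod 2, chi (∑ i, y i * v i) =
        ∑ y : ι → ZMod 2, chi (∑ i, (y + e) i * v i) :=
      (Fintype.sum_equiv (Equiv.addRight e) _ _ (fun y => rfl)).symm
    have h2 : ∀ y : ι → ZMod 2, chi (∑ i, (y + e) i * v i) =
        -chi (∑ i, y i * v i) := by
      intro y
      have h3 : ∑ i, (y + e) i * v i = ∑ i, y i * v i + 1 := by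
        have h4 : ∀ i, (y + e) i * v i = y i * v i + (if i = j then 1 else 0) := by
          intro i
          by_cases hi : i = j
          · subst hi
            simp [hj1, e]
          · simp [hi, e]
        rw [sum_congr rfl fun i _ => h4 i, sum_add_distrib]
        simp
      rw [h3, chi_add]
      have : chi 1 = -1 := by decide
      rw [this]
      ring
    rw [sum_congr rfl fun y _ => h2 y, sum_neg_distrib] at h1
    linarith

variable {ι : Type*} [Fintype ι] [DecidableEq ι]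

/-- the square of the Gauss sum -/
lemma gauss_sq (q : (ι → ZMod 2) → ZMod 2) (G : (ι → ZMod 2) → ι → ZMod 2)
    (h : ∀ y u, q (y + u) = q y + q u + ∑ i, y i * G u i) :
    (∑ y, chi (q y)) ^ 2 = 2 ^ Fintype.card ι * ∑ u with G u = 0, chi (q u) := by
  rw [sq, sum_mul_sum]
  have h1 : ∀ y : ι → ZMod 2, ∑ z, chi (q y) * chi (q z) =
      ∑ u, chi (q u) * chi (∑ i, y i * G u i) := by
    intro y
    rw [← Fintype.sum_equiv (Equiv.addLeft y) (fun u => chi (q y) * chi (q (y + u))) _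
      (fun u => rfl)]
    refine sum_congr rfl fun u _ => ?_
    rw [h, chi_add, chi_add, ← mul_assoc, ← mul_assoc, chi_mul_self, one_mul]
  rw [sum_congr rfl fun y _ => h1 y, sum_comm]
  have h2 : ∀ u : ι → ZMod 2, ∑ y : ι → ZMod 2, chi (q u) * chi (∑ i, y i * G u i) =
      if G u = 0 then 2 ^ Fintype.card ι * chi (q u) else 0 := by
    intro u
    rw [← mul_sum, sum_chi]
    split_ifs
    · ring
    · ring
  rw [sum_congr rfl fun u _ => h2 u, ← sum_filter, mul_sum]

omit [Fintype ι] [DecidableEq ι] in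
/-- `chi` is odd -/
lemma sum_chi_card (s : Finset (ι → ZMod 2)) (q : (ι → ZMod 2) → ZMod 2) :
    (2 : ℤ) ∣ ∑ u ∈ s, chi (q u) - (#s : ℤ) := by
  have h1 : ∑ u ∈ s, chi (q u) - (#s : ℤ) = ∑ u ∈ s, (chi (q u) - 1) := by
    rw [sum_sub_distrib]; simp
  rw [h1]
  refine dvd_sum fun u _ => ?_
  generalize q u = t
  revert t; decide

/-- the base ring -/
abbrev R := Zsqrtd (-2)

/-- the square root of `-2` -/
def w : R := ⟨0, 1⟩

lemma w_sq : w * w = -2 := by decide

lemma w_pow_two : w ^ 2 = -2 := by rw [sq, w_sq]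

lemma w_pow_even (m : ℕ) : w ^ (2 * m) = (-2) ^ m := by rw [pow_mul, w_pow_two]

lemma two_eq : (2 : R) = -(w * w) := by rw [w_sq]; rfl

lemma dvd_of_two_dvd {z : ℤ} (h : (2 : ℤ) ∣ z) : w ^ 2 ∣ (z : R) := by
  obtain ⟨c, rfl⟩ := h
  refine ⟨-(c : R), ?_⟩
  rw [w_pow_two]
  push_cast
  ring

/-- arithmetic: `N ^ 2 = 2 ^ k * c`, `c ≡ K` mod 2 implies `N ≡ w ^ k K` mod `w ^ (k + 1)` -/
lemma arith (k : ℕ) (N c K : ℤ) (h : N ^ 2 = 2 ^ k * c) (hc : (2 : ℤ) ∣ c - K) :
    w ^ (k + 1) ∣ (N : R) - w ^ k * (K : R) := by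
  rcases Nat.even_or_odd' k with ⟨m, rfl | rfl⟩
  · -- even
    have h1 : (2 ^ m : ℤ) ∣ N := by
      have h2 : ((2 : ℤ) ^ m) ^ 2 ∣ N ^ 2 := ⟨c, by rw [h]; ring⟩
      exact (Int.pow_dvd_pow_iff (two_ne_zero)).1 h2
    obtain ⟨N', rfl⟩ := h1
    have h2 : N' ^ 2 = c := by
      have h3 : ((2 : ℤ) ^ (2 * m)) ≠ 0 := by positivity
      apply mul_left_cancel₀ h3
      rw [← h]; ring
    subst h2
    have h3 : (2 : ℤ) ∣ N' - (-1) ^ m * K := by
      have h4 : (2 : ℤ) ∣ N' ^ 2 - N' := by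
        have := Int.even_mul_succ_self (N' - 1)
        rw [even_iff_two_dvd] at this
        have e : N' ^ 2 - N' = (N' - 1) * (N' - 1 + 1) := by ring
        rwa [e]
      rcases neg_one_pow_eq_or ℤ m with e | e
      · rw [e]
        have := (Int.dvd_sub hc h4)
        have e2 : N' ^ 2 - K - (N' ^ 2 - N') = N' - 1 * K := by ring
        rwa [e2] at this
      · rw [e]
        have := (Int.dvd_sub hc h4)
        have e2 : N' - -1 * K = N' ^ 2 - K - (N' ^ 2 - N') + 2 * K := by ring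
        rw [e2]
        exact dvd_add this (dvd_mul_right 2 K)
    have h5 := dvd_of_two_dvd h3
    have h6 : (((2 ^ m * N' : ℤ) : R)) - w ^ (2 * m) * (K : R) =
        ((-1) ^ m * w ^ (2 * m)) * ((N' - (-1) ^ m * K : ℤ) : R) := by
      have e1 : (2 : R) ^ m = (-1) ^ m * w ^ (2 * m) := by
        rw [w_pow_even, ← mul_pow]; norm_num
      have e2 : ((-1 : R) ^ m) * (-1) ^ m = 1 := by
        rw [← mul_pow]; norm_num
      push_cast
      rw [e1]
      linear_combination (w ^ (2 * m) * (K : R)) * e2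
    rw [h6]
    calc w ^ (2 * m + 1) ∣ w ^ (2 * m) * w ^ 2 := by
          rw [← pow_add]; exact pow_dvd_pow _ (by omega)
      _ ∣ _ := mul_dvd_mul (dvd_mul_left _ _) h5
  · -- odd
    have h1 : (2 ^ m : ℤ) ∣ N := by
      have h2 : ((2 : ℤ) ^ m) ^ 2 ∣ N ^ 2 := ⟨2 * c, by rw [h]; ring⟩
      exact (Int.pow_dvd_pow_iff (two_ne_zero)).1 h2
    obtain ⟨N', rfl⟩ := h1
    have h2 : N' ^ 2 = 2 * c := by
      have h3 : ((2 : ℤ) ^ (2 * m)) ≠ 0 := by positivity
      apply mul_left_cancel₀ h3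
      calc (2 : ℤ) ^ (2 * m) * N' ^ 2 = (2 ^ m * N') ^ 2 := by ring
        _ = _ := by rw [h]; ring
    have h3 : (2 : ℤ) ∣ N' := by
      have : (2 : ℤ) ∣ N' ^ 2 := ⟨c, h2⟩
      exact Int.prime_two.dvd_of_dvd_pow this
    obtain ⟨N'', rfl⟩ := h3
    have h4 : c = 2 * N'' ^ 2 := by
      have : 2 * c = 2 * (2 * N'' ^ 2) := by rw [← h2]; ring
      linarith
    have h5 : (2 : ℤ) ∣ K := by
      rw [h4] at hc
      have e : K = 2 * N'' ^ 2 - (2 * N'' ^ 2 - K) := by ring
      rw [e]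
      exact Int.dvd_sub (dvd_mul_right _ _) hc
    apply dvd_sub
    · have e1 : (2 : R) ^ (m + 1) = (-1) ^ (m + 1) * w ^ (2 * (m + 1)) := by
        rw [w_pow_even, ← mul_pow]; norm_num
      have e2 : ((2 ^ m * (2 * N'') : ℤ) : R) = w ^ (2 * m + 1 + 1) * ((-1) ^ (m + 1) * N'') := by
        push_cast
        have : (2 : R) ^ m * (2 * (N'' : R)) = 2 ^ (m + 1) * (N'' : R) := by ring
        rw [this, e1]
        ring
      rw [e2]
      exact dvd_mul_right _ _
    · rw [pow_succ w (2 * m + 1)]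
      refine mul_dvd_mul (dvd_refl _) ?_
      have := dvd_of_two_dvd h5
      exact (dvd_pow_self w two_ne_zero).trans this

/-- **the Gauss sum congruence** -/
theorem gauss (q : (ι → ZMod 2) → ZMod 2) (G : (ι → ZMod 2) → ι → ZMod 2)
    (h : ∀ y u, q (y + u) = q y + q u + ∑ i, y i * G u i) :
    w ^ (Fintype.card ι + 1) ∣ ((∑ y, chi (q y) : ℤ) : R) -
      w ^ Fintype.card ι * ((#{u | G u = 0} : ℕ) : R) := by
  have h1 := arith (Fintype.card ι) (∑ y, chi (q y)) _ (#{u | G u = 0} : ℤ) (gauss_sq q G h)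
    (sum_chi_card _ q)
  simpa using h1

end MP6489b8.MD
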