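import Mathlib
import Pool.Agent.Lib.MP_6489b8_al.MD.Vec
import Pool.Agent.Lib.MP_6489b8_al.MD.Gauss

/-!
# The congruence of the two functionals
-/

namespace MP6489b8.MD

open Finset

variable {n : ℕ}

/-- The word `A` of letters acting on functions. -/
def LA : List (Fin n) → (Vec n → R) → Vec n → R
  | [], ψ => ψ
  | a :: A, ψ => fun β => LA A ψ β - ((chi (β a) : ℤ) : R) * LA A ψ (β + lo a)

/-- The word `B` of traces acting on the constant function. -/
def TB : List (Fin n) → Vec n → R
  | [] => fun _ => 1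
  | b :: B => fun β => 2 * TB B β - w * ((chi (β b) : ℤ) : R) * TB B (β + hi b)

/-- The chain condition. -/
def chain : ZMod 2 → List (Fin n) → Vec n → Prop
  | _, [], _ => True
  | s, a :: A, y => (s = ∑ c with c < a, y c) ∧ chain (s + y a) A y

instance (s : ZMod 2) (A : List (Fin n)) (y : Vec n) : Decidable (chain s A y) := by
  induction A generalizing s with
  | nil => exact inferInstanceAs (Decidable True)
  | cons a A ih =>
    exact @instDecidableAnd _ _ inferInstance (ih (s + y a))

/-- The number of solutions. -/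
def cnt (A B : List (Fin n)) : ℕ := #{y : Vec n | (∀ b ∈ B, y b = 0) ∧ chain 0 A y}

namespace Co

/-- The phase. -/
def Q : (A : List (Fin n)) → (Fin A.length → ZMod 2) → Vec n → ZMod 2
  | [], _, _ => 0
  | a :: A, y, β => y 0 * (1 + β a) + Q A (Fin.tail y) (β + y 0 • lo a)

/-- The shift. -/
def sh : (A : List (Fin n)) → (Fin A.length → ZMod 2) → Vec n
  | [], _ => 0
  | a :: A, y => y 0 • lo a + sh A (Fin.tail y)

theorem sum_cons' {M : Type*} [AddCommMonoid M] (k : ℕ)
    (f : (Fin (k + 1) → ZMod 2) → M) :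
    ∑ y, f y = ∑ y : Fin k → ZMod 2, (f (Fin.cons 0 y) + f (Fin.cons 1 y)) := by
  have h := Fintype.sum_equiv (Fin.consEquiv fun _ : Fin (k + 1) => ZMod 2)
    (fun p => f (Fin.cons p.1 p.2)) f (fun p => rfl)
  rw [← h, Fintype.sum_prod_type, sum_add_distrib]
  exact Fin.sum_univ_two (f := fun x : Fin 2 => ∑ y : Fin k → ZMod 2, f (Fin.cons (x : ZMod 2) y))

theorem sum_cons {M : Type*} [AddCommMonoid M] (a : Fin n) (A : List (Fin n))
    (f : (Fin (a :: A).length → ZMod 2) → M) :
    ∑ y, f y = ∑ y : Fin A.length → ZMod 2, (f (Fin.cons 0 y) + f (Fin.cons 1 y)) :=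
  sum_cons' A.length f

theorem LA_eq (A : List (Fin n)) (ψ : Vec n → R) (β : Vec n) :
    LA A ψ β = ∑ y : Fin A.length → ZMod 2, ((chi (Q A y β) : ℤ) : R) * ψ (β + sh A y) := by
  induction A generalizing β with
  | nil =>
    simp [LA, Q, sh, chi_zero]
  | cons a A ih =>
    rw [sum_cons]
    change LA A ψ β - ((chi (β a) : ℤ) : R) * LA A ψ (β + lo a) = _
    rw [ih, ih, mul_sum, ← sum_sub_distrib]
    apply sum_congr rfl
    intro y _
    simp only [Q, sh, Fin.cons_zero, Fin.tail_cons, zero_mul, zero_smul, zero_add, add_zero,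
      one_mul, one_smul]
    rw [chi_add, chi_add, chi_one, add_assoc]
    push_cast
    ring

/-- The gradient. -/
def G : (A : List (Fin n)) → (Fin A.length → ZMod 2) → Fin A.length → ZMod 2
  | [], _ => fun i => i.elim0
  | a :: A, u => Fin.cons (∑ i, Fin.tail u i * lo a (A.get i))
      (fun i => G A (Fin.tail u) i + u 0 * lo a (A.get i))

theorem G_zero (a : Fin n) (A : List (Fin n)) (u : Fin (a :: A).length → ZMod 2) :
    G (a :: A) u (0 : Fin (A.length + 1)) = ∑ i, Fin.tail u i * lo a (A.get i) := rfl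

theorem G_succ (a : Fin n) (A : List (Fin n)) (u : Fin (a :: A).length → ZMod 2)
    (i : Fin A.length) :
    G (a :: A) u (Fin.succ i) = G A (Fin.tail u) i + u 0 * lo a (A.get i) := rfl

theorem sum_succ (a : Fin n) (A : List (Fin n)) (f : Fin (a :: A).length → ZMod 2) :
    ∑ i, f i = f (0 : Fin (A.length + 1)) + ∑ i : Fin A.length, f (Fin.succ i) :=
  Fin.sum_univ_succ (n := A.length) f

theorem Q_add (A : List (Fin n)) (y : Fin A.length → ZMod 2) (β γ : Vec n) :
    Q A y (β + γ) = Q A y β + ∑ i, y i * γ (A.get i) := by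
  induction A generalizing β with
  | nil => simp [Q]
  | cons a A ih =>
    rw [sum_succ]
    change y 0 * (1 + (β + γ) a) + Q A (Fin.tail y) (β + γ + y 0 • lo a) =
      (y 0 * (1 + β a) + Q A (Fin.tail y) (β + y 0 • lo a)) +
        (y 0 * γ a + ∑ i, Fin.tail y i * γ (A.get i))
    rw [add_right_comm β γ, ih, Pi.add_apply]
    ring

theorem Q_add_left (A : List (Fin n)) (y u : Fin A.length → ZMod 2) (β : Vec n) :
    Q A (y + u) β = Q A y β + Q A u β + ∑ i, y i * G A u i := by
  induction A generalizing β with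
  | nil => simp [Q]
  | cons a A ih =>
    rw [sum_succ]
    change (y 0 + u 0) * (1 + β a) + Q A (Fin.tail y + Fin.tail u) (β + (y 0 + u 0) • lo a) =
      (y 0 * (1 + β a) + Q A (Fin.tail y) (β + y 0 • lo a)) +
      (u 0 * (1 + β a) + Q A (Fin.tail u) (β + u 0 • lo a)) +
        (y 0 * (∑ i, Fin.tail u i * lo a (A.get i)) +
          ∑ i, Fin.tail y i * (G A (Fin.tail u) i + u 0 * lo a (A.get i)))
    rw [ih]
    have h1 : Q A (Fin.tail y) (β + (y 0 + u 0) • lo a) = Q A (Fin.tail y) (β + y 0 • lo a) +
        ∑ i, Fin.tail y i * (u 0 • lo a) (A.get i) := by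
      rw [← Q_add, add_smul, add_assoc]
    have h2 : Q A (Fin.tail u) (β + (y 0 + u 0) • lo a) = Q A (Fin.tail u) (β + u 0 • lo a) +
        ∑ i, Fin.tail u i * (y 0 • lo a) (A.get i) := by
      rw [← Q_add, add_smul, add_comm (y 0 • lo a), add_assoc]
    rw [h1, h2]
    simp only [Pi.smul_apply, smul_eq_mul, mul_add, sum_add_distrib, mul_sum]
    have h4 : ∀ i, Fin.tail u i * (y 0 * lo a (A.get i)) =
      y 0 * (Fin.tail u i * lo a (A.get i)) := fun i => by ring
    simp only [h4]
    ring

theorem sh_add (A : List (Fin n)) (y u : Fin A.length → ZMod 2) :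
    sh A (y + u) = sh A y + sh A u := by
  induction A with
  | nil => simp [sh]
  | cons a A ih =>
    change (y 0 + u 0) • lo a + sh A (Fin.tail y + Fin.tail u) =
      (y 0 • lo a + sh A (Fin.tail y)) + (u 0 • lo a + sh A (Fin.tail u))
    rw [ih, add_smul]
    abel

/-- The characters. -/
def psi (S : Vec n) : Vec n → R := fun β => ((chi (∑ c, S c * β c) : ℤ) : R)

theorem LA_psi (A : List (Fin n)) (S : Vec n) :
    w ^ (A.length + 1) ∣ LA A (psi S) 0 -
      w ^ A.length * ((#{u : Fin A.length → ZMod 2 | G A u = 0} : ℕ) : R) := by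
  have h1 := gauss (fun y : Fin A.length → ZMod 2 => Q A y 0 + ∑ c, S c * sh A y c) (G A) (by
    intro y u
    simp only [Q_add_left, sh_add, Pi.add_apply, mul_add, sum_add_distrib]
    ring)
  rw [Fintype.card_fin] at h1
  have h2 : LA A (psi S) 0 =
      ((∑ y : Fin A.length → ZMod 2, chi (Q A y 0 + ∑ c, S c * sh A y c) : ℤ) : R) := by
    rw [LA_eq]
    push_cast
    apply sum_congr rfl
    intro y _
    rw [chi_add, zero_add, psi]
    push_cast
    rfl
  rw [h2]
  exact h1

/-- The kernel and the chain condition. -/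
theorem ker_iff (A : List (Fin n)) (hA : A.Nodup) (y e : Vec n) (s : ZMod 2)
    (hI : ∀ c ∈ A, (∑ c' with c' < c, y c') =
      s + e c + ∑ i, y (A.get i) * lo c (A.get i)) :
    (∀ i, G A (fun i => y (A.get i)) i + e (A.get i) = 0) ↔ chain s A y := by
  induction A generalizing s e with
  | nil => exact ⟨fun _ => trivial, fun _ i => i.elim0⟩
  | cons a A ih =>
    have hA' := List.nodup_cons.1 hA
    have h0 := hI a List.mem_cons_self
    rw [sum_succ] at h0
    change _ = s + e a + (y a * lo a a + ∑ i, y (A.get i) * lo a (A.get i)) at h0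
    have hlo : lo a a = 0 := if_neg (lt_irrefl a)
    rw [hlo, mul_zero, zero_add] at h0
    have h1 := ih hA'.2 (e + y a • lo a) (s + y a) (by
      intro c hc
      have h2 := hI c (List.mem_cons_of_mem _ hc)
      rw [sum_succ] at h2
      change _ = s + e c + (y a * lo c a + ∑ i, y (A.get i) * lo c (A.get i)) at h2
      rw [h2, Pi.add_apply, Pi.smul_apply, smul_eq_mul]
      have hne : c ≠ a := fun h => hA'.1 (h ▸ hc)
      have h3 : y a * lo c a = y a + y a * lo a c := by
        rcases lt_or_gt_of_ne hne with h | h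
        · have e1 : lo c a = 0 := if_neg (not_lt.2 h.le)
          have e2 : lo a c = 1 := if_pos h
          rw [e1, e2, mul_zero, mul_one, CharTwo.add_self_eq_zero]
        · have e1 : lo c a = 1 := if_pos h
          have e2 : lo a c = 0 := if_neg (not_lt.2 (le_of_lt h))
          rw [e1, e2, mul_zero, mul_one, add_zero]
      rw [h3]
      ring)
    have h5 : chain s (a :: A) y ↔ (s = ∑ c with c < a, y c) ∧ chain (s + y a) A y := Iff.rfl
    rw [h5, ← h1]
    constructor
    · intro h
      constructor
      · have h6 := h (0 : Fin (A.length + 1))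
        change (∑ i, y (A.get i) * lo a (A.get i)) + e a = 0 at h6
        rw [h0]
        have : s + e a + ∑ i, y (A.get i) * lo a (A.get i) =
          s + ((∑ i, y (A.get i) * lo a (A.get i)) + e a) := by ring
        rw [this, h6, add_zero]
      · intro i
        have h6 := h (Fin.succ i : Fin (A.length + 1))
        change G A (fun i => y (A.get i)) i + y a * lo a (A.get i) + e (A.get i) = 0 at h6
        rw [Pi.add_apply, Pi.smul_apply, smul_eq_mul, ← h6]
        ring
    · rintro ⟨h6, h7⟩ i
      refine Fin.cases (n := A.length) ?_ ?_ i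
      · change (∑ i, y (A.get i) * lo a (A.get i)) + e a = 0
        rw [h0] at h6
        have h8 : s + ((∑ i, y (A.get i) * lo a (A.get i)) + e a) = s + 0 := by
          rw [add_zero]
          conv_rhs => rw [h6]
          ring
        exact add_left_cancel h8
      · intro i
        have h8 := h7 i
        change G A (fun i => y (A.get i)) i + y a * lo a (A.get i) + e (A.get i) = 0
        rw [Pi.add_apply, Pi.smul_apply, smul_eq_mul] at h8
        rw [← h8]
        ring

theorem ker_iff' (A B : List (Fin n)) (h : (A ++ B).Perm (List.finRange n)) (y : Vec n)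
    (hy : ∀ b ∈ B, y b = 0) :
    G A (fun i => y (A.get i)) = 0 ↔ chain 0 A y := by
  have hnd : (A ++ B).Nodup := h.nodup_iff.2 (List.nodup_finRange n)
  have hA : A.Nodup := (List.nodup_append.1 hnd).1
  rw [← ker_iff A hA y 0 0]
  · rw [funext_iff]
    simp
  · intro c _
    rw [zero_add, Pi.zero_apply, zero_add]
    symm
    rw [sum_filter]
    refine Fintype.sum_of_injective A.get (List.nodup_iff_injective_get.1 hA) _ _ ?_ ?_
    · intro c' hc'
      have h1 : c' ∈ A ++ B := h.mem_iff.2 (List.mem_finRange c')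
      rcases List.mem_append.1 h1 with h2 | h2
      · exact absurd (List.mem_iff_get.1 h2) hc'
      · rw [hy c' h2]
        simp
    · intro i
      rw [lo]
      split_ifs <;> simp

theorem card_ker (A B : List (Fin n)) (h : (A ++ B).Perm (List.finRange n)) :
    #{u : Fin A.length → ZMod 2 | G A u = 0} = cnt A B := by
  have hnd : (A ++ B).Nodup := h.nodup_iff.2 (List.nodup_finRange n)
  have hA := List.nodup_append.1 hnd
  have hinj := List.nodup_iff_injective_get.1 hA.1
  symm
  refine card_bij (fun y _ => fun i => y (A.get i)) ?_ ?_ ?_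
  · intro y hy
    rw [mem_filter] at hy ⊢
    exact ⟨mem_univ _, (ker_iff' A B h y hy.2.1).2 hy.2.2⟩
  · intro y hy y' hy' he
    rw [mem_filter] at hy hy'
    funext c
    have h1 : c ∈ A ++ B := h.mem_iff.2 (List.mem_finRange c)
    rcases List.mem_append.1 h1 with h2 | h2
    · obtain ⟨i, rfl⟩ := List.mem_iff_get.1 h2
      exact congrFun he i
    · rw [hy.2.1 c h2, hy'.2.1 c h2]
  · intro u hu
    rw [mem_filter] at hu
    have h1 : (fun i => Function.extend A.get u (fun _ => 0) (A.get i)) = u := by
      funext i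
      exact hinj.extend_apply u _ i
    have h2 : ∀ b ∈ B, Function.extend A.get u (fun _ => 0) b = 0 := by
      intro b hb
      refine Function.extend_apply' _ _ _ ?_
      rintro ⟨i, hi⟩
      exact hA.2.2 (A.get i) (List.get_mem A i) b hb hi
    refine ⟨Function.extend A.get u (fun _ => 0), ?_, h1⟩
    rw [mem_filter]
    refine ⟨mem_univ _, h2, ?_⟩
    rw [← ker_iff' A B h _ h2, h1]
    exact hu.2

/-- The span of the characters. -/
def Ch (n : ℕ) : Submodule R (Vec n → R) := Submodule.span R (Set.range psi)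

theorem LA_lin (A : List (Fin n)) (c : R) (f g : Vec n → R) (β : Vec n) :
    LA A (c • f + g) β = c * LA A f β + LA A g β := by
  simp only [LA_eq, Pi.add_apply, Pi.smul_apply, smul_eq_mul, mul_sum, ← sum_add_distrib]
  apply sum_congr rfl
  intro y _
  ring

theorem LA_add (A : List (Fin n)) (f g : Vec n → R) (β : Vec n) :
    LA A (f + g) β = LA A f β + LA A g β := by
  have h := LA_lin A 1 f g β
  rwa [one_smul, one_mul] at h

theorem LA_smul (A : List (Fin n)) (c : R) (f : Vec n → R) (β : Vec n) :
    LA A (c • f) β = c * LA A f β := by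
  simp only [LA_eq, Pi.smul_apply, smul_eq_mul, mul_sum]
  apply sum_congr rfl
  intro y _
  ring

theorem LA_zero (A : List (Fin n)) (β : Vec n) : LA A (0 : Vec n → R) β = 0 := by
  simp [LA_eq]

theorem LA_Ch (A : List (Fin n)) (f : Vec n → R) (hf : f ∈ Ch n) :
    w ^ A.length ∣ LA A f 0 := by
  induction hf using Submodule.span_induction with
  | mem x hx =>
    obtain ⟨S, rfl⟩ := hx
    have h1 := (pow_dvd_pow w (Nat.le_succ A.length)).trans (LA_psi A S)
    exact (dvd_sub_left (dvd_mul_right _ _)).1 h1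
  | zero => rw [LA_zero]; exact dvd_zero _
  | add x y _ _ hx hy => rw [LA_add]; exact dvd_add hx hy
  | smul c x _ hx => rw [LA_smul]; exact hx.mul_left c

theorem psi_shift (S : Vec n) (b : Fin n) (β : Vec n) :
    ((chi (β b) : ℤ) : R) * psi S (β + hi b) =
      ((chi (∑ c, S c * hi b c) : ℤ) : R) * psi (S + Pi.single b 1) β := by
  have h1 : ∑ c, (S + (Pi.single b 1 : Vec n)) c * β c = ∑ c, S c * β c + β b := by
    simp only [Pi.add_apply, add_mul, sum_add_distrib]
    congr 1
    rw [sum_eq_single b]
    · simp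
    · intro c _ hc
      simp [hc]
    · intro hb
      exact absurd (mem_univ b) hb
  rw [psi, psi, h1]
  simp only [Pi.add_apply, mul_add, sum_add_distrib, chi_add]
  push_cast
  ring

theorem shift_Ch (b : Fin n) (f : Vec n → R) (hf : f ∈ Ch n) :
    (fun β => ((chi (β b) : ℤ) : R) * f (β + hi b)) ∈ Ch n := by
  induction hf using Submodule.span_induction with
  | mem x hx =>
    obtain ⟨S, rfl⟩ := hx
    have h1 : (fun β => ((chi (β b) : ℤ) : R) * psi S (β + hi b)) =
        ((chi (∑ c, S c * hi b c) : ℤ) : R) • psi (S + Pi.single b 1) := by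
      funext β
      exact psi_shift S b β
    rw [h1]
    exact Submodule.smul_mem _ _ (Submodule.subset_span ⟨_, rfl⟩)
  | zero =>
    convert Submodule.zero_mem (Ch n) using 1
    funext β
    exact mul_zero _
  | add x y _ _ hx hy =>
    convert Submodule.add_mem _ hx hy using 1
    funext β
    simp only [Pi.add_apply, mul_add]
  | smul c x _ hx =>
    convert Submodule.smul_mem _ c hx using 1
    funext β
    simp only [Pi.smul_apply, smul_eq_mul]
    ring

theorem chi_cases (x : ZMod 2) : chi x = 1 ∨ chi x = -1 := by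
  revert x; decide

theorem TB_eq (B : List (Fin n)) : ∃ (ε : ℤ) (S : Vec n) (g : Vec n → R), (ε = 1 ∨ ε = -1) ∧
    g ∈ Ch n ∧ TB B = w ^ B.length • ((ε : R) • psi S + w • g) := by
  induction B with
  | nil =>
    refine ⟨1, 0, 0, Or.inl rfl, Submodule.zero_mem _, ?_⟩
    funext β
    simp [TB, psi, chi_zero]
  | cons b B ih =>
    obtain ⟨ε, S, g, hε, hg, hB⟩ := ih
    refine ⟨-ε * chi (∑ c, S c * hi b c), S + Pi.single b 1,
      -((ε : R) • psi S + w • g) - fun β => ((chi (β b) : ℤ) : R) * g (β + hi b), ?_, ?_, ?_⟩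
    · rcases hε with rfl | rfl <;> rcases chi_cases (∑ c, S c * hi b c) with h | h <;>
        rw [h] <;> simp
    · refine Submodule.sub_mem _ (Submodule.neg_mem _ (Submodule.add_mem _
        (Submodule.smul_mem _ _ (Submodule.subset_span ⟨_, rfl⟩))
        (Submodule.smul_mem _ _ hg))) (shift_Ch b g hg)
    · funext β
      change 2 * TB B β - w * ((chi (β b) : ℤ) : R) * TB B (β + hi b) = _
      rw [hB, List.length_cons, pow_succ]
      simp only [Pi.smul_apply, Pi.add_apply, Pi.sub_apply, Pi.neg_apply, smul_eq_mul]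
      have h1 := psi_shift S b β
      push_cast
      rw [two_eq]
      linear_combination (-w ^ B.length * w * (ε : R)) * h1

end Co

open Co in
/-- **The congruence of the two functionals.** -/
theorem core {A B : List (Fin n)} (h : (A ++ B).Perm (List.finRange n)) :
    w ^ (n + 1) ∣ LA A (TB B) 0 - w ^ n * ((cnt A B : ℕ) : R) := by
  have hlen : B.length + A.length = n := by
    have h1 := h.length_eq
    rw [List.length_append, List.length_finRange] at h1
    omega
  obtain ⟨ε, S, g, hε, hg, hB⟩ := TB_eq B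
  have h1 : LA A (TB B) 0 = w ^ B.length * ((ε : R) * LA A (psi S) 0 + w * LA A g 0) := by
    rw [hB, LA_smul, LA_add, LA_smul, LA_smul]
  obtain ⟨z, hz⟩ := LA_psi A S
  obtain ⟨z', hz'⟩ := LA_Ch A g hg
  rw [card_ker A B h] at hz
  have h2 : LA A (psi S) 0 = w ^ (A.length + 1) * z + w ^ A.length * ((cnt A B : ℕ) : R) := by
    rw [← hz]; ring
  have h3 : ∃ d : R, (ε : R) = 1 + w * d := by
    rcases hε with rfl | rfl
    · exact ⟨0, by simp⟩
    · refine ⟨w, ?_⟩
      rw [w_sq]
      norm_num
  obtain ⟨d, hd⟩ := h3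
  have h4 : w ^ n = w ^ B.length * w ^ A.length := by rw [← pow_add, hlen]
  refine ⟨(ε : R) * z + z' + d * ((cnt A B : ℕ) : R), ?_⟩
  rw [h1, h2, hz', pow_succ, pow_succ, h4, hd]
  ring

end MP6489b8.MD
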