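import Mathlib
import Pool.Agent.Lib.MP_6489b8_al.AF.Chain
import Pool.Agent.Lib.MP_6489b8_al.MD.Vec

/-!
# The Cayley bimodule of the two by two matrices
-/

namespace MP6489b8.MD

open MP6489b8 MP6489b8.AF

variable {C : Type} [CommRing C]

/-- The left action of a matrix. -/
def mL (a : Matrix (Fin 2) (Fin 2) C) (v : C × C) : C × C :=
  (a 0 0 * v.1 + a 0 1 * v.2, a 1 0 * v.1 + a 1 1 * v.2)

/-- The action of the trace. -/
def mt (a : Matrix (Fin 2) (Fin 2) C) (v : C × C) : C × C :=
  ((a 0 0 + a 1 1) * v.1, (a 0 0 + a 1 1) * v.2)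

/-- **The Cayley bimodule.** -/
def SM (C : Type) [CommRing C] : LC (Matrix (Fin 2) (Fin 2) C)ᵐᵒᵖ (C × C) where
  L :=
    { toFun := fun b =>
        { toFun := mL b.unop
          map_zero' := by simp [mL]
          map_add' := fun u v => by
            refine Prod.ext ?_ ?_ <;> simp only [mL, Prod.fst_add, Prod.snd_add] <;> ring }
      map_zero' := by
        refine AddMonoidHom.ext fun v => ?_
        change mL 0 v = 0
        simp [mL]
      map_add' := fun a b => by
        refine AddMonoidHom.ext fun v => ?_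
        change mL (a.unop + b.unop) v = mL a.unop v + mL b.unop v
        refine Prod.ext ?_ ?_ <;>
          simp only [mL, Prod.fst_add, Prod.snd_add, Matrix.add_apply] <;> ring }
  t :=
    { toFun := fun b =>
        { toFun := mt b.unop
          map_zero' := by simp [mt]
          map_add' := fun u v => by
            refine Prod.ext ?_ ?_ <;> simp only [mt, Prod.fst_add, Prod.snd_add] <;> ring }
      map_zero' := by
        refine AddMonoidHom.ext fun v => ?_
        change mt 0 v = 0
        simp [mt]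
      map_add' := fun a b => by
        refine AddMonoidHom.ext fun v => ?_
        change mt (a.unop + b.unop) v = mt a.unop v + mt b.unop v
        refine Prod.ext ?_ ?_ <;>
          simp only [mt, Prod.fst_add, Prod.snd_add, Matrix.add_apply] <;> ring }
  L_mul := fun a b v => by
    change mL (b.unop * a.unop) v = mL b.unop (mL a.unop v)
    refine Prod.ext ?_ ?_ <;> simp only [mL, Matrix.mul_apply, Fin.sum_univ_two] <;> ring
  t_L := fun a b v => by
    change mt a.unop (mL b.unop v) = mL b.unop (mt a.unop v)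
    refine Prod.ext ?_ ?_ <;> simp only [mL, mt] <;> ring
  t_mul := fun a b v => by
    change mt (b.unop * a.unop) v = mt b.unop (mt a.unop v) + mL a.unop (mL b.unop v) +
      mL b.unop (mL a.unop v) - mt a.unop (mL b.unop v) - mt b.unop (mL a.unop v)
    refine Prod.ext ?_ ?_ <;> simp only [mL, mt, Matrix.mul_apply, Fin.sum_univ_two,
      Prod.fst_add, Prod.snd_add, Prod.fst_sub, Prod.snd_sub] <;> ring

theorem SM_L (a : (Matrix (Fin 2) (Fin 2) C)ᵐᵒᵖ) (v : C × C) : (SM C).L a v = mL a.unop v := rfl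

theorem SM_t (a : (Matrix (Fin 2) (Fin 2) C)ᵐᵒᵖ) (v : C × C) : (SM C).t a v = mt a.unop v := rfl

/-- The operators `(a, c, ·)` in coordinates. -/
theorem SM_E (a c : (Matrix (Fin 2) (Fin 2) C)ᵐᵒᵖ) (v : C × C) :
    (SM C).E a c v =
      ((c.unop 0 1 * a.unop 1 0 - a.unop 0 1 * c.unop 1 0) * v.1 +
        (c.unop 0 0 * a.unop 0 1 + c.unop 0 1 * a.unop 1 1 -
          a.unop 0 0 * c.unop 0 1 - a.unop 0 1 * c.unop 1 1) * v.2,
       (c.unop 1 0 * a.unop 0 0 + c.unop 1 1 * a.unop 1 0 -
          a.unop 1 0 * c.unop 0 0 - a.unop 1 1 * c.unop 1 0) * v.1 -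
        (c.unop 0 1 * a.unop 1 0 - a.unop 0 1 * c.unop 1 0) * v.2) := by
  change mL c.unop (mL a.unop v) - mL a.unop (mL c.unop v) = _
  refine Prod.ext ?_ ?_ <;> simp only [mL, Prod.fst_sub, Prod.snd_sub] <;> ring

/-- The standard identity of degree four. -/
theorem SM_s4 {ι : Type} (b : ι → (Matrix (Fin 2) (Fin 2) C)ᵐᵒᵖ) (x y z w : ι) (v : C × C) :
    (SM C).s4 b x y z w v = 0 := by
  simp only [LC.s4, SM_E]
  generalize (b x).unop = X
  generalize (b y).unop = Y
  generalize (b z).unop = Z
  generalize (b w).unop = W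
  refine Prod.ext ?_ ?_ <;>
    simp only [Prod.fst_sub, Prod.snd_sub, Prod.fst_add, Prod.snd_add, Prod.fst_zero,
      Prod.snd_zero] <;> ring

end MP6489b8.MD
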