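import Mathlib
import Pool.Agent.Lib.MP_6489b8_al.AF.LC

/-!
# The left Cayley bimodule of a supercommutative ring of operators
-/

namespace MP6489b8.MD

open MP6489b8 MP6489b8.AF

section Comm

variable {E : Type*} [Ring E] (e : E) (Γ : Set E)

/-- Even operators supercommuting with `Γ`. -/
def X0 (m : E) : Prop := e * m = m * e ∧ ∀ g ∈ Γ, m * g = g * m

/-- Odd operators supercommuting with `Γ`. -/
def X1 (m : E) : Prop := e * m = -(m * e) ∧ ∀ g ∈ Γ, m * g = -(g * m)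

/-- Even elements of the double supercommutant. -/
def P0 (l : E) : Prop :=
  X0 e Γ l ∧ (∀ m, X0 e Γ m → l * m = m * l) ∧ ∀ m, X1 e Γ m → l * m = m * l

/-- Odd elements of the double supercommutant. -/
def P1 (l : E) : Prop :=
  X1 e Γ l ∧ (∀ m, X0 e Γ m → l * m = m * l) ∧ ∀ m, X1 e Γ m → l * m = -(m * l)

variable {e Γ}

theorem P0.zero : P0 e Γ 0 :=
  ⟨⟨by simp, fun g _ => by simp⟩, fun m _ => by simp, fun m _ => by simp⟩

theorem P1.zero : P1 e Γ 0 :=
  ⟨⟨by simp, fun g _ => by simp⟩, fun m _ => by simp, fun m _ => by simp⟩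

theorem P0.add {a b : E} (ha : P0 e Γ a) (hb : P0 e Γ b) : P0 e Γ (a + b) :=
  ⟨⟨by rw [mul_add, add_mul, ha.1.1, hb.1.1],
    fun g hg => by rw [mul_add, add_mul, ha.1.2 g hg, hb.1.2 g hg]⟩,
    fun m hm => by rw [mul_add, add_mul, ha.2.1 m hm, hb.2.1 m hm],
    fun m hm => by rw [mul_add, add_mul, ha.2.2 m hm, hb.2.2 m hm]⟩

theorem P1.add {a b : E} (ha : P1 e Γ a) (hb : P1 e Γ b) : P1 e Γ (a + b) :=
  ⟨⟨by rw [mul_add, add_mul, ha.1.1, hb.1.1, neg_add],
    fun g hg => by rw [mul_add, add_mul, ha.1.2 g hg, hb.1.2 g hg, neg_add]⟩,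
    fun m hm => by rw [mul_add, add_mul, ha.2.1 m hm, hb.2.1 m hm],
    fun m hm => by rw [mul_add, add_mul, ha.2.2 m hm, hb.2.2 m hm, neg_add]⟩

theorem P0.neg {a : E} (ha : P0 e Γ a) : P0 e Γ (-a) :=
  ⟨⟨by rw [mul_neg, neg_mul, ha.1.1],
    fun g hg => by rw [mul_neg, neg_mul, ha.1.2 g hg]⟩,
    fun m hm => by rw [mul_neg, neg_mul, ha.2.1 m hm],
    fun m hm => by rw [mul_neg, neg_mul, ha.2.2 m hm]⟩

theorem P1.neg {a : E} (ha : P1 e Γ a) : P1 e Γ (-a) :=
  ⟨⟨by rw [mul_neg, neg_mul, ha.1.1],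
    fun g hg => by rw [mul_neg, neg_mul, ha.1.2 g hg]⟩,
    fun m hm => by rw [mul_neg, neg_mul, ha.2.1 m hm],
    fun m hm => by rw [mul_neg, neg_mul, ha.2.2 m hm]⟩

/-- Elements of `P0` commute with each other and with those of `P1`. -/
theorem P0.comm0 {a b : E} (ha : P0 e Γ a) (hb : P0 e Γ b) : a * b = b * a := ha.2.1 b hb.1
theorem P0.comm1 {a b : E} (ha : P0 e Γ a) (hb : P1 e Γ b) : a * b = b * a := ha.2.2 b hb.1
theorem P1.comm1 {a b : E} (ha : P1 e Γ a) (hb : P1 e Γ b) : a * b = -(b * a) := ha.2.2 b hb.1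

theorem P0.mul0 {a b : E} (ha : P0 e Γ a) (hb : P0 e Γ b) : P0 e Γ (a * b) := by
  refine ⟨⟨?_, fun g hg => ?_⟩, fun m hm => ?_, fun m hm => ?_⟩
  · rw [← mul_assoc, ha.1.1, mul_assoc, hb.1.1, mul_assoc]
  · rw [mul_assoc, hb.1.2 g hg, ← mul_assoc, ha.1.2 g hg, mul_assoc]
  · rw [mul_assoc, hb.2.1 m hm, ← mul_assoc, ha.2.1 m hm, mul_assoc]
  · rw [mul_assoc, hb.2.2 m hm, ← mul_assoc, ha.2.2 m hm, mul_assoc]

theorem P0.mul1 {a b : E} (ha : P0 e Γ a) (hb : P1 e Γ b) : P1 e Γ (a * b) := by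
  refine ⟨⟨?_, fun g hg => ?_⟩, fun m hm => ?_, fun m hm => ?_⟩
  · rw [← mul_assoc, ha.1.1, mul_assoc, hb.1.1, mul_neg, mul_assoc]
  · rw [mul_assoc, hb.1.2 g hg, mul_neg, ← mul_assoc, ha.1.2 g hg, mul_assoc]
  · rw [mul_assoc, hb.2.1 m hm, ← mul_assoc, ha.2.1 m hm, mul_assoc]
  · rw [mul_assoc, hb.2.2 m hm, mul_neg, ← mul_assoc, ha.2.2 m hm, mul_assoc]

theorem P1.mul1 {a b : E} (ha : P1 e Γ a) (hb : P1 e Γ b) : P0 e Γ (a * b) := by
  refine ⟨⟨?_, fun g hg => ?_⟩, fun m hm => ?_, fun m hm => ?_⟩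
  · rw [← mul_assoc, ha.1.1, neg_mul, mul_assoc, hb.1.1, mul_neg, neg_neg, mul_assoc]
  · rw [mul_assoc, hb.1.2 g hg, mul_neg, ← mul_assoc, ha.1.2 g hg, neg_mul, neg_neg, mul_assoc]
  · rw [mul_assoc, hb.2.1 m hm, ← mul_assoc, ha.2.1 m hm, mul_assoc]
  · rw [mul_assoc, hb.2.2 m hm, mul_neg, ← mul_assoc, ha.2.2 m hm, neg_mul, neg_neg, mul_assoc]

/-- Central elements commuting with `e` belong to `P0`. -/
theorem P0_of_central {a : E} (h : ∀ m, a * m = m * a) : P0 e Γ a :=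
  ⟨⟨(h e).symm, fun g _ => h g⟩, fun m _ => h m, fun m _ => h m⟩

/-- The generators belong to `P1`. -/
theorem P1_of_mem {a : E} (h : a ∈ Γ) (he : e * a = -(a * e)) (hΓ : ∀ g ∈ Γ, a * g = -(g * a)) :
    P1 e Γ a :=
  ⟨⟨he, hΓ⟩, fun m hm => (hm.2 a h).symm, fun m hm => by rw [hm.2 a h, neg_neg]⟩

end Comm

/-- Pairs (even part, odd part), multiplied in the reversed order. -/
def Pr (E : Type) : Type := E × E

namespace Pr

variable {E : Type} [Ring E]

instance : AddCommGroup (Pr E) := inferInstanceAs (AddCommGroup (E × E))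

instance : Mul (Pr E) := ⟨fun a b => (b.1 * a.1 + b.2 * a.2, b.1 * a.2 + b.2 * a.1)⟩

theorem fst_mul (a b : Pr E) : (a * b).1 = b.1 * a.1 + b.2 * a.2 := rfl
theorem snd_mul (a b : Pr E) : (a * b).2 = b.1 * a.2 + b.2 * a.1 := rfl
theorem fst_add (a b : Pr E) : (a + b).1 = a.1 + b.1 := rfl
theorem snd_add (a b : Pr E) : (a + b).2 = a.2 + b.2 := rfl
theorem fst_zero : (0 : Pr E).1 = 0 := rfl
theorem snd_zero : (0 : Pr E).2 = 0 := rfl
theorem fst_neg (a : Pr E) : (-a).1 = -a.1 := rfl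
theorem snd_neg (a : Pr E) : (-a).2 = -a.2 := rfl

omit [Ring E] in
theorem ext' {a b : Pr E} (h1 : a.1 = b.1) (h2 : a.2 = b.2) : a = b := Prod.ext h1 h2

instance : NonUnitalRing (Pr E) :=
  { (inferInstance : AddCommGroup (Pr E)), (inferInstance : Mul (Pr E)) with
    left_distrib := fun a b c => ext' (by simp only [fst_mul, fst_add, snd_add, add_mul]; abel)
      (by simp only [snd_mul, fst_add, snd_add, add_mul]; abel)
    right_distrib := fun a b c => ext' (by simp only [fst_mul, fst_add, snd_add, mul_add]; abel)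
      (by simp only [snd_mul, fst_add, snd_add, mul_add]; abel)
    zero_mul := fun a => ext' (by simp only [fst_mul, fst_zero, snd_zero, mul_zero, add_zero])
      (by simp only [snd_mul, fst_zero, snd_zero, mul_zero, add_zero])
    mul_zero := fun a => ext' (by simp only [fst_mul, fst_zero, snd_zero, zero_mul, add_zero])
      (by simp only [snd_mul, fst_zero, snd_zero, zero_mul, add_zero])
    mul_assoc := fun a b c => ext' (by simp only [fst_mul, snd_mul, mul_add, add_mul, mul_assoc]; abel)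
      (by simp only [fst_mul, snd_mul, mul_add, add_mul, mul_assoc]; abel) }

end Pr

variable {K W : Type} [CommRing K] [AddCommGroup W] [Module K W]

/-- The supercommutative ring. -/
def SB (e : Module.End K W) (Γ : Set (Module.End K W)) : NonUnitalSubring (Pr (Module.End K W)) where
  carrier := {a | P0 e Γ a.1 ∧ P1 e Γ a.2}
  add_mem' := fun ha hb => ⟨ha.1.add hb.1, ha.2.add hb.2⟩
  zero_mem' := ⟨P0.zero, P1.zero⟩
  neg_mem' := fun ha => ⟨ha.1.neg, ha.2.neg⟩
  mul_mem' := fun ha hb => ⟨(hb.1.mul0 ha.1).add (hb.2.mul1 ha.2),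
    (hb.1.mul1 ha.2).add (by rw [← ha.1.comm1 hb.2]; exact ha.1.mul1 hb.2)⟩

/-- The left action. -/
def La (a : Pr (Module.End K W)) : Module.End K W := a.1 + a.2

/-- The operator `t = L + R`. -/
def Ta (e : Module.End K W) (w : K) (a : Pr (Module.End K W)) : Module.End K W :=
  (2 : K) • a.1 + w • (a.2 * e)

theorem La_add (a b : Pr (Module.End K W)) : La (a + b) = La a + La b := by
  simp only [La, Pr.fst_add, Pr.snd_add]; abel

theorem Ta_add (e : Module.End K W) (w : K) (a b : Pr (Module.End K W)) :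
    Ta e w (a + b) = Ta e w a + Ta e w b := by
  simp only [Ta, Pr.fst_add, Pr.snd_add, add_mul, smul_add]; abel

section LC

variable {e : Module.End K W} {Γ : Set (Module.End K W)} {w : K}

theorem La_mul {a b : Pr (Module.End K W)} : La (a * b) = La b * La a := by
  simp only [La, Pr.fst_mul, Pr.snd_mul, add_mul, mul_add]; abel

theorem Ta_La {a b : Pr (Module.End K W)} (ha : a ∈ SB e Γ) (hb : b ∈ SB e Γ) :
    Ta e w a * La b = La b * Ta e w a := by
  have h1 := ha.1.comm0 hb.1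
  have h2 := ha.1.comm1 hb.2
  have h3 := hb.1.comm1 ha.2
  have h4 := hb.2.comm1 ha.2
  have h5 := hb.1.1.1
  have h6 := hb.2.1.1
  have k1 : a.2 * e * b.1 = b.1 * (a.2 * e) := by
    rw [mul_assoc, h5, ← mul_assoc, ← h3, mul_assoc]
  have k2 : a.2 * e * b.2 = b.2 * (a.2 * e) := by
    rw [mul_assoc, h6, mul_neg, ← mul_assoc, ← neg_mul, ← h4, mul_assoc]
  simp only [La, Ta, add_mul, mul_add, smul_mul_assoc, mul_smul_comm, k1, k2, h1, h2, smul_add]
  abel

theorem Ta_mul (he : e * e = 1) (hw : w * w = -2) {a b : Pr (Module.End K W)}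
    (ha : a ∈ SB e Γ) (hb : b ∈ SB e Γ) :
    Ta e w (a * b) = Ta e w b * Ta e w a + La a * La b + La b * La a - Ta e w a * La b -
      Ta e w b * La a := by
  have h1 := ha.1.comm0 hb.1
  have h2 := ha.1.comm1 hb.2
  have h3 := hb.1.comm1 ha.2
  have h4 := hb.2.comm1 ha.2
  have h5 := hb.1.1.1
  have h6 := hb.2.1.1
  have h7 := ha.1.1.1
  have h8 := ha.2.1.1
  have k1 : a.2 * e * b.1 = b.1 * (a.2 * e) := by
    rw [mul_assoc, h5, ← mul_assoc, ← h3, mul_assoc]
  have k2 : a.2 * e * b.2 = b.2 * (a.2 * e) := by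
    rw [mul_assoc, h6, mul_neg, ← mul_assoc, ← neg_mul, ← h4, mul_assoc]
  have k3 : b.2 * e * a.1 = b.2 * (a.1 * e) := by rw [mul_assoc, h7]
  have k4 : b.2 * e * a.2 = -(b.2 * (a.2 * e)) := by rw [mul_assoc, h8, mul_neg]
  have k5 : b.2 * e * (a.2 * e) = -(b.2 * a.2) := by
    rw [← mul_assoc (b.2 * e), k4, neg_mul, mul_assoc b.2, mul_assoc a.2, he, mul_one]
  have k6 : b.2 * e * a.1 = a.1 * (b.2 * e) := by rw [k3, ← mul_assoc, ← h2, mul_assoc]
  have k7 : b.1 * a.1 = a.1 * b.1 := h1.symm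
  have k8 : b.2 * a.1 = a.1 * b.2 := h2.symm
  have k9 : a.2 * b.1 = b.1 * a.2 := h3.symm
  have k10 : a.2 * b.2 = -(b.2 * a.2) := by rw [h4, neg_neg]
  simp only [La, Ta, Pr.fst_mul, Pr.snd_mul, add_mul, mul_add, smul_mul_assoc, mul_smul_comm,
    smul_add, smul_smul, k1, k2, k5, k6, k4, k7, k8, k9, k10, mul_assoc b.1 a.2 e,
    smul_neg]
  have k11 : a.1 * b.2 * e = a.1 * (b.2 * e) := mul_assoc _ _ _
  rw [k11, hw]
  module

end LC

/-- **The left Cayley bimodule.** -/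
def SLC (e : Module.End K W) (Γ : Set (Module.End K W)) (w : K) (he : e * e = 1)
    (hw : w * w = -2) : LC (SB e Γ) W where
  L :=
    { toFun := fun b => (La b.1).toAddMonoidHom
      map_zero' := by
        ext v
        change La (0 : Pr (Module.End K W)) v = 0
        simp [La, Pr.fst_zero, Pr.snd_zero]
      map_add' := fun a b => by
        ext v
        change La (a.1 + b.1) v = La a.1 v + La b.1 v
        rw [La_add]; rfl }
  t :=
    { toFun := fun b => (Ta e w b.1).toAddMonoidHom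
      map_zero' := by
        ext v
        change Ta e w (0 : Pr (Module.End K W)) v = 0
        simp [Ta, Pr.fst_zero, Pr.snd_zero]
      map_add' := fun a b => by
        ext v
        change Ta e w (a.1 + b.1) v = Ta e w a.1 v + Ta e w b.1 v
        rw [Ta_add]; rfl }
  L_mul := fun a b v => by
    change La (a.1 * b.1) v = La b.1 (La a.1 v)
    rw [La_mul]; rfl
  t_L := fun a b v => by
    change (Ta e w a.1 * La b.1) v = (La b.1 * Ta e w a.1) v
    rw [Ta_La a.2 b.2]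
  t_mul := fun a b v => by
    change Ta e w (a.1 * b.1) v = _
    rw [Ta_mul he hw a.2 b.2]; rfl

end MP6489b8.MD
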