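import Mathlib
import Pool.Agent.Lib.MP_6489b8_al.AF.Chain
import Pool.Agent.Lib.MP_6489b8_al.MD.Sup
import Pool.Agent.Lib.MP_6489b8_al.MD.Vec

/-!
# The exterior left Cayley bimodule
-/

namespace MP6489b8.MD

open MP6489b8 MP6489b8.AF

variable {n : ℕ} {K : Type} [CommRing K] (s : Fin n → K)

/-- The exterior operators. -/
def g (a : Fin n) : Module.End K (Vec n → K) := s a • P K a

theorem g_g (hs : ∀ a, s a * s a = 0) (a b : Fin n) : g s a * g s b = -(g s b * g s a) := by
  by_cases h : a = b
  · subst h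
    simp only [g, smul_mul_assoc, mul_smul_comm, smul_smul, hs, zero_smul, neg_zero]
  · simp only [g, smul_mul_assoc, mul_smul_comm, smul_smul, P_P h, smul_neg]
    rw [mul_comm]

theorem eps_g (a : Fin n) : eps K n * g s a = -(g s a * eps K n) := by
  simp only [g, smul_mul_assoc, mul_smul_comm, eps_P, smul_neg]

/-- The letters. -/
def lt2 (hs : ∀ a, s a * s a = 0) (a : Fin n) : SB (eps K n) (Set.range (g s)) :=
  ⟨(s a • 1, -g s a), P0_of_central (fun m => by
      simp only [smul_mul_assoc, mul_smul_comm, one_mul, mul_one]),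
    (P1_of_mem (Γ := Set.range (g s)) ⟨a, rfl⟩ (eps_g s a) (by rintro _ ⟨b, rfl⟩; exact g_g s hs a b)).neg⟩

/-- The exterior bimodule. -/
def S2 (w : K) (hw : w * w = -2) : LC (SB (eps K n) (Set.range (g s))) (Vec n → K) :=
  SLC (eps K n) (Set.range (g s)) w eps_mul_self hw

/-- The exterior operators as additive maps. -/
def ge (a : Fin n) : (Vec n → K) →+ (Vec n → K) := (g s a).toAddMonoidHom

variable {s} {w : K} (hw : w * w = -2) (hs : ∀ a, s a * s a = 0)

theorem S2_L (a : Fin n) (v : Vec n → K) :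
    (S2 s w hw).L (lt2 s hs a) v = s a • v - g s a v := by
  change (s a • (1 : Module.End K (Vec n → K)) + -g s a) v = _
  rw [LinearMap.add_apply, LinearMap.smul_apply, LinearMap.neg_apply, ← sub_eq_add_neg]
  rfl

theorem S2_t (a : Fin n) (v : Vec n → K) :
    (S2 s w hw).t (lt2 s hs a) v = s a • ((2 : K) • v - w • (P K a * eps K n) v) := by
  change ((2 : K) • (s a • (1 : Module.End K (Vec n → K))) + w • (-g s a * eps K n)) v = _
  have h : (2 : K) • (s a • (1 : Module.End K (Vec n → K))) + w • (-g s a * eps K n) =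
      s a • ((2 : K) • (1 : Module.End K (Vec n → K)) - w • (P K a * eps K n)) := by
    rw [neg_mul (g s a) (eps K n), g, smul_mul_assoc]
    module
  rw [h]
  rfl

theorem S2_ext : (S2 s w hw).Ext0 (lt2 s hs) (ge s) (fun _ => 1) 2 where
  anti i j xs := by
    change (g s i * g s j) _ = -(g s j * g s i) _
    rw [g_g s hs, LinearMap.neg_apply]
  comm i j xs := by
    rw [S2_L, S2_L, S2_L, S2_L]
    change _ = (2 : ℤ) • (g s i * g s j) _
    have h := congrArg (fun f : Module.End K (Vec n → K) => f (LC.top (ge s) (fun _ => 1) xs))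
      (g_g s hs i j)
    simp only [LinearMap.neg_apply] at h
    simp only [map_sub, map_smul]
    change g s i (g s j _) = -g s j (g s i _) at h
    change _ = (2 : ℤ) • g s i (g s j _)
    rw [two_zsmul]
    have h2 : g s j (g s i (LC.top (ge s) (fun _ => 1) xs)) =
      -g s i (g s j (LC.top (ge s) (fun _ => 1) xs)) := by rw [h, neg_neg]
    rw [h2, smul_sub, smul_sub, smul_comm (s j) (s i)]
    abel

end MP6489b8.MD
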