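import Mathlib

/-!
# The ring of tags

`Tag R n` is the commutative ring generated over `R` by elements `s a`, `a : Fin n`, with
`s a * s a = 0`; `top` is the coefficient of the product of all `s a`.
-/

namespace MP6489b8.MD

open MvPolynomial

variable (R : Type*) [CommRing R] (n : ℕ)

/-- The ideal generated by the squares of the variables. -/
noncomputable def tagIdeal : Ideal (MvPolynomial (Fin n) R) := Ideal.span (Set.range fun i => X i ^ 2)

/-- The ring of tags. -/
abbrev Tag : Type _ := MvPolynomial (Fin n) R ⧸ tagIdeal R n

/-- The exponent `(1, ..., 1)`. -/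
noncomputable def ones : Fin n →₀ ℕ := Finsupp.equivFunOnFinite.symm fun _ => 1

variable {n} in
/-- The tag of the letter `a`. -/
noncomputable def s (a : Fin n) : Tag R n := Ideal.Quotient.mk _ (X a)

variable {n}

@[simp] theorem ones_apply (a : Fin n) : ones n a = 1 := rfl

theorem s_mul_s (a : Fin n) : s R a * s R a = 0 := by
  rw [s, ← map_mul, Ideal.Quotient.eq_zero_iff_mem, ← sq]
  exact Ideal.subset_span ⟨a, rfl⟩

theorem coeff_ones_eq_zero {f : MvPolynomial (Fin n) R} (hf : f ∈ tagIdeal R n) :
    coeff (ones n) f = 0 := by
  have key : ∀ g : MvPolynomial (Fin n) R, coeff (ones n) (g * f) = 0 := by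
    refine Submodule.span_induction
      (p := fun f _ => ∀ g : MvPolynomial (Fin n) R, coeff (ones n) (g * f) = 0) ?_ ?_ ?_ ?_ hf
    · rintro _ ⟨i, rfl⟩ g
      change coeff (ones n) (g * X i ^ 2) = 0
      rw [X_pow_eq_monomial, coeff_mul_monomial', if_neg]
      intro h
      have := h i
      simp at this
    · intro g; simp
    · intro x y _ _ hx hy g
      rw [mul_add, coeff_add, hx, hy, add_zero]
    · intro a x _ hx g
      rw [smul_eq_mul, ← mul_assoc]
      exact hx _
  simpa using key 1

variable (n) in
/-- The coefficient of the product of all tags. -/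
noncomputable def top : Tag R n →ₗ[R] R :=
  ((tagIdeal R n).restrictScalars R).liftQ (lcoeff R (ones n))
    (fun _ hf => coeff_ones_eq_zero R hf) ∘ₗ
      (Submodule.Quotient.restrictScalarsEquiv R (tagIdeal R n)).symm.toLinearMap

theorem top_mk (f : MvPolynomial (Fin n) R) :
    top R n (Ideal.Quotient.mk _ f) = coeff (ones n) f := rfl

theorem prod_X (l : List (Fin n)) : (l.map (X : Fin n → MvPolynomial (Fin n) R)).prod =
    monomial (l.map fun a => Finsupp.single a 1).sum 1 := by
  induction l with
  | nil => simp
  | cons a l ih => rw [List.map_cons, List.prod_cons, ih, X, monomial_mul, List.map_cons,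
      List.sum_cons, one_mul]

theorem sum_single_apply (l : List (Fin n)) (a : Fin n) :
    (l.map fun a => (Finsupp.single a 1 : Fin n →₀ ℕ)).sum a = l.count a := by
  induction l with
  | nil => simp
  | cons b l ih =>
    rw [List.map_cons, List.sum_cons, Finsupp.add_apply, ih, List.count_cons,
      Finsupp.single_apply, add_comm]
    simp

theorem sum_single_eq_ones (l : List (Fin n)) :
    (l.map fun a => (Finsupp.single a 1 : Fin n →₀ ℕ)).sum = ones n ↔
      l.Perm (List.finRange n) := by
  rw [List.perm_iff_count]
  constructor
  · intro h a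
    rw [← sum_single_apply, h, ones_apply,
      List.count_eq_one_of_mem (List.nodup_finRange n) (List.mem_finRange a)]
  · intro h
    ext a
    rw [sum_single_apply, h, ones_apply,
      List.count_eq_one_of_mem (List.nodup_finRange n) (List.mem_finRange a)]

/-- The value of `top` on a product of tags. -/
theorem top_prod (r : R) (l : List (Fin n)) :
    top R n (algebraMap R (Tag R n) r * (l.map (s R)).prod) =
      if l.Perm (List.finRange n) then r else 0 := by
  have h1 : (l.map (s R)).prod = Ideal.Quotient.mk (tagIdeal R n) (l.map X).prod := by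
    rw [map_list_prod, List.map_map]
    rfl
  have h2 : algebraMap R (Tag R n) r = Ideal.Quotient.mk (tagIdeal R n) (C r) := rfl
  rw [h1, h2, ← map_mul, top_mk, prod_X, C_mul_monomial, mul_one, coeff_monomial]
  simp only [sum_single_eq_ones]

theorem top_prod_perm (r : R) {l : List (Fin n)} (h : l.Perm (List.finRange n)) :
    top R n (algebraMap R (Tag R n) r * (l.map (s R)).prod) = r := by
  rw [top_prod, if_pos h]

theorem top_prod_not_perm (r : R) {l : List (Fin n)} (h : ¬ l.Perm (List.finRange n)) :
    top R n (algebraMap R (Tag R n) r * (l.map (s R)).prod) = 0 := by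
  rw [top_prod, if_neg h]

end MP6489b8.MD
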