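import Mathlib
import Pool.Agent.Lib.MP_6489b8_al.MD.E1
import Pool.Agent.Lib.MP_6489b8_al.MD.E2
import Pool.Agent.Lib.MP_6489b8_al.MD.Tag
import Pool.Agent.Lib.MP_6489b8_al.MD.Core

/-!
# The operator words in the two bimodules
-/

namespace MP6489b8.MD

open MP6489b8 MP6489b8.AF

section Normal

variable {B V ι : Type} [NonUnitalRing B] [AddCommGroup V] (S : LC B V) (b : ι → B)

/-- The `L` letters of a word. -/
def lef : List (ι ⊕ ι) → List ι
  | [] => []
  | Sum.inl a :: W => a :: lef W
  | Sum.inr _ :: W => lef W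

/-- The `t` letters of a word. -/
def rig : List (ι ⊕ ι) → List ι
  | [] => []
  | Sum.inl _ :: W => rig W
  | Sum.inr a :: W => a :: rig W

theorem act_t (a : ι) (A : List ι) (v : V) :
    S.t (b a) (S.act b (A.map Sum.inl) v) = S.act b (A.map Sum.inl) (S.t (b a) v) := by
  induction A with
  | nil => rfl
  | cons c A ih =>
    rw [List.map_cons]
    change S.t (b a) (S.L (b c) (S.act b (A.map Sum.inl) v)) =
      S.L (b c) (S.act b (A.map Sum.inl) (S.t (b a) v))
    rw [S.t_L, ih]

/-- Words can be sorted. -/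
theorem act_sort (W : List (ι ⊕ ι)) (v : V) :
    S.act b W v = S.act b ((lef W).map Sum.inl) (S.act b ((rig W).map Sum.inr) v) := by
  induction W with
  | nil => rfl
  | cons x W ih =>
    cases x with
    | inl a =>
      change S.L (b a) (S.act b W v) = S.L (b a) (S.act b ((lef W).map Sum.inl) _)
      rw [ih]
      rfl
    | inr a =>
      change S.t (b a) (S.act b W v) = S.act b ((lef W).map Sum.inl)
        (S.t (b a) (S.act b ((rig W).map Sum.inr) v))
      rw [ih, act_t]

end Normal

variable {n : ℕ}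

/-- Tags over `ℤ√-2`. -/
abbrev TR (n : ℕ) : Type := Tag R n

/-- The square root of `-2` in the tag ring. -/
noncomputable def wK (n : ℕ) : TR n := algebraMap R (TR n) w

theorem wK_sq : wK n * wK n = -2 := by
  rw [wK, ← map_mul, w_sq, map_neg, map_ofNat]

/-- Functions with values in `R` as functions with values in the tag ring. -/
noncomputable def emb (ψ : Vec n → R) : Vec n → TR n := fun β => algebraMap R (TR n) (ψ β)

theorem emb_one : emb (fun _ : Vec n => (1 : R)) = fun _ => 1 := by
  funext β; exact map_one _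

/-- The exterior bimodule over the tag ring. -/
noncomputable abbrev SS2 (n : ℕ) :
    LC (SB (eps (TR n) n) (Set.range (g (s R (n := n))))) (Vec n → TR n) :=
  S2 (s R) (wK n) wK_sq

/-- The letters of the exterior bimodule. -/
noncomputable abbrev b2 (n : ℕ) : Fin n → SB (eps (TR n) n) (Set.range (g (s R (n := n)))) :=
  lt2 (s R) (s_mul_s R)

theorem SS2_L_emb (a : Fin n) (c : TR n) (ψ : Vec n → R) :
    (SS2 n).L (b2 n a) (c • emb ψ) =
      (s R a * c) • emb (fun β => ψ β - chi (β a) * ψ (β + lo a)) := by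
  rw [S2_L]
  funext β
  simp only [Pi.sub_apply, Pi.smul_apply, smul_eq_mul, g, LinearMap.smul_apply, P_apply, emb,
    map_sub, map_mul, map_intCast]
  ring

theorem SS2_t_emb (a : Fin n) (c : TR n) (ψ : Vec n → R) :
    (SS2 n).t (b2 n a) (c • emb ψ) =
      (s R a * c) • emb (fun β => 2 * ψ β - w * chi (β a) * ψ (β + hi a)) := by
  rw [S2_t]
  funext β
  simp only [Pi.sub_apply, Pi.smul_apply, smul_eq_mul, P_eps_apply, emb,
    map_sub, map_mul, map_intCast, wK, map_ofNat]
  ring

theorem act2_t (B : List (Fin n)) :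
    (SS2 n).act (b2 n) (B.map Sum.inr) (fun _ => 1) = (B.map (s R)).prod • emb (TB B) := by
  induction B with
  | nil =>
    change (fun _ => 1) = (1 : TR n) • emb (fun _ => 1)
    rw [one_smul, emb_one]
  | cons b B ih =>
    change (SS2 n).t (b2 n b) ((SS2 n).act (b2 n) (B.map Sum.inr) (fun _ => 1)) = _
    rw [ih, SS2_t_emb]
    rfl

theorem act2_L (A : List (Fin n)) (c : TR n) (ψ : Vec n → R) :
    (SS2 n).act (b2 n) (A.map Sum.inl) (c • emb ψ) =
      ((A.map (s R)).prod * c) • emb (LA A ψ) := by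
  induction A with
  | nil =>
    change c • emb ψ = (1 * c) • emb ψ
    rw [one_mul]
  | cons a A ih =>
    change (SS2 n).L (b2 n a) ((SS2 n).act (b2 n) (A.map Sum.inl) (c • emb ψ)) = _
    rw [ih, SS2_L_emb, List.map_cons, List.prod_cons, mul_assoc]
    rfl

/-- Operator words in the exterior bimodule. -/
theorem act2 (W : List (Fin n ⊕ Fin n)) :
    (SS2 n).act (b2 n) W (fun _ => 1) =
      (((lef W ++ rig W).map (s R)).prod) • emb (LA (lef W) (TB (rig W))) := by
  rw [act_sort, act2_t, act2_L, List.map_append, List.prod_append]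

/-- The partial sums. -/
def ps (a : Fin n) (y : Vec n) : ZMod 2 := ∑ c with c < a, y c

/-- The ring of the matrix coefficients. -/
abbrev CR (n : ℕ) : Type := Vec n → TR n

/-- The entries of the matrices of the letters. -/
noncomputable def ent (a : Fin n) (i j : ZMod 2) : CR n :=
  fun y => if i = ps a y ∧ j = ps a y + y a then s R a else 0

/-- The matrices of the letters. -/
noncomputable def mat (a : Fin n) : Matrix (Fin 2) (Fin 2) (CR n) :=
  Matrix.of ![![ent a 0 0, ent a 0 1], ![ent a 1 0, ent a 1 1]]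

/-- The letters of the matrix bimodule. -/
noncomputable def b1 (n : ℕ) (a : Fin n) : (Matrix (Fin 2) (Fin 2) (CR n))ᵐᵒᵖ :=
  MulOpposite.op (mat a)

/-- The components of a vector. -/
def comp (v : CR n × CR n) (i : ZMod 2) : CR n := if i = 0 then v.1 else v.2

theorem ext_comp {u v : CR n × CR n} (h : ∀ i y, comp u i y = comp v i y) : u = v := by
  refine Prod.ext (funext fun y => ?_) (funext fun y => ?_)
  · exact h 0 y
  · exact h 1 y

theorem zmod_two_cases (p : ZMod 2) : p = 0 ∨ p = 1 := by
  revert p; decide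

theorem comp_L (a : Fin n) (v : CR n × CR n) (i : ZMod 2) (y : Vec n) :
    comp ((SM (CR n)).L (b1 n a) v) i y =
      if i = ps a y then s R a * comp v (i + y a) y else 0 := by
  rw [SM_L]
  change comp (mL (mat a) v) i y = _
  have e0 : comp (mL (mat a) v) 0 y = ent a 0 0 y * v.1 y + ent a 0 1 y * v.2 y := rfl
  have e1 : comp (mL (mat a) v) 1 y = ent a 1 0 y * v.1 y + ent a 1 1 y * v.2 y := rfl
  have c0 : comp v 0 = v.1 := rfl
  have c1 : comp v 1 = v.2 := rfl
  have z1 : (0 : ZMod 2) ≠ 1 := by decide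
  have z2 : (1 : ZMod 2) ≠ 0 := by decide
  have z3 : (1 : ZMod 2) + 1 = 0 := by decide
  rcases zmod_two_cases i with rfl | rfl
  · rw [e0]
    rcases zmod_two_cases (ps a y) with hp | hp <;>
      rcases zmod_two_cases (y a) with hq | hq <;>
      simp [ent, hp, hq, c0, c1, z1, z2, z3]
  · rw [e1]
    rcases zmod_two_cases (ps a y) with hp | hp <;>
      rcases zmod_two_cases (y a) with hq | hq <;>
      simp [ent, hp, hq, c0, c1, z1, z2, z3]

theorem comp_t (a : Fin n) (v : CR n × CR n) (i : ZMod 2) (y : Vec n) :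
    comp ((SM (CR n)).t (b1 n a) v) i y =
      if y a = 0 then s R a * comp v i y else 0 := by
  rw [SM_t]
  change comp (mt (mat a) v) i y = _
  have e0 : comp (mt (mat a) v) 0 y = (ent a 0 0 y + ent a 1 1 y) * v.1 y := rfl
  have e1 : comp (mt (mat a) v) 1 y = (ent a 0 0 y + ent a 1 1 y) * v.2 y := rfl
  have c0 : comp v 0 = v.1 := rfl
  have c1 : comp v 1 = v.2 := rfl
  have z1 : (0 : ZMod 2) ≠ 1 := by decide
  have z2 : (1 : ZMod 2) ≠ 0 := by decide
  have z3 : (1 : ZMod 2) + 1 = 0 := by decide
  rcases zmod_two_cases i with rfl | rfl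
  · rw [e0]
    rcases zmod_two_cases (ps a y) with hp | hp <;>
      rcases zmod_two_cases (y a) with hq | hq <;>
      simp [ent, hp, hq, c0, z1, z2, z3]
  · rw [e1]
    rcases zmod_two_cases (ps a y) with hp | hp <;>
      rcases zmod_two_cases (y a) with hq | hq <;>
      simp [ent, hp, hq, c1, z1, z2, z3]

open Classical in
theorem act1_t (B : List (Fin n)) (i : ZMod 2) (y : Vec n) :
    comp ((SM (CR n)).act (b1 n) (B.map Sum.inr) (1, 1)) i y =
      if ∀ b ∈ B, y b = 0 then (B.map (s R)).prod else 0 := by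
  induction B with
  | nil =>
    change comp (1, 1) i y = _
    rcases zmod_two_cases i with rfl | rfl <;> simp [comp]
  | cons b B ih =>
    change comp ((SM (CR n)).t (b1 n b) ((SM (CR n)).act (b1 n) (B.map Sum.inr) (1, 1))) i y = _
    rw [comp_t, ih]
    by_cases h : y b = 0
    · simp [h]
    · simp [h]

open Classical in
theorem act1_L (A : List (Fin n)) (v : CR n × CR n) (c : TR n) (y : Vec n)
    (hv : ∀ i, comp v i y = c) (i : ZMod 2) :
    comp ((SM (CR n)).act (b1 n) (A.map Sum.inl) v) i y =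
      if chain i A y then (A.map (s R)).prod * c else 0 := by
  induction A generalizing i with
  | nil =>
    change comp v i y = _
    simp [hv, chain]
  | cons a A ih =>
    change comp ((SM (CR n)).L (b1 n a) ((SM (CR n)).act (b1 n) (A.map Sum.inl) v)) i y = _
    rw [comp_L, ih]
    by_cases h : i = ps a y
    · by_cases h' : chain (i + y a) A y
      · rw [if_pos h, if_pos h', if_pos ⟨h, h'⟩, List.map_cons, List.prod_cons, mul_assoc]
      · rw [if_pos h, if_neg h', if_neg (fun hh => h' hh.2), mul_zero]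
    · rw [if_neg h, if_neg (fun hh => h hh.1)]

open Classical in
/-- Operator words in the matrix bimodule. -/
theorem act1 (W : List (Fin n ⊕ Fin n)) (y : Vec n) :
    ((SM (CR n)).act (b1 n) W (1, 1)).1 y =
      if (∀ b ∈ rig W, y b = 0) ∧ chain 0 (lef W) y then
        ((lef W ++ rig W).map (s R)).prod else 0 := by
  rw [act_sort]
  have h := act1_L (lef W) ((SM (CR n)).act (b1 n) ((rig W).map Sum.inr) (1, 1)) _ y
    (fun i => act1_t (rig W) i y) 0
  change comp _ 0 y = _
  rw [h]
  by_cases h1 : ∀ b ∈ rig W, y b = 0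
  · by_cases h2 : chain 0 (lef W) y
    · rw [if_pos h1, if_pos h2, if_pos ⟨h1, h2⟩, List.map_append, List.prod_append]
    · rw [if_neg h2, if_neg (fun hh => h2 hh.2)]
  · rw [if_neg h1, mul_zero, ite_self, if_neg (fun hh => h1 hh.1)]

/-- The functional of the exterior bimodule. -/
noncomputable def F2 (n : ℕ) : (Vec n → TR n) →+ ℤ where
  toFun ψ := (top R n (ψ 0) * (-w) ^ (n + 1)).im
  map_zero' := by
    rw [Pi.zero_apply, map_zero, zero_mul]; rfl
  map_add' u v := by
    rw [Pi.add_apply, map_add, add_mul]; rfl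

/-- The functional of the matrix bimodule. -/
noncomputable def G1 (n : ℕ) : (CR n × CR n) →+ ℤ where
  toFun v := (w ^ n * (∑ y, top R n (v.1 y)) * (-w) ^ (n + 1)).im
  map_zero' := by
    simp only [Prod.fst_zero, Pi.zero_apply, map_zero, Finset.sum_const_zero, mul_zero, zero_mul]
    rfl
  map_add' u v := by
    simp only [Prod.fst_add, Pi.add_apply, map_add, Finset.sum_add_distrib, mul_add, add_mul]
    rfl

theorem F2_act (W : List (Fin n ⊕ Fin n)) :
    F2 n ((SS2 n).act (b2 n) W (fun _ => 1)) =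
      ((if (lef W ++ rig W).Perm (List.finRange n) then LA (lef W) (TB (rig W)) 0 else 0) *
        (-w) ^ (n + 1)).im := by
  rw [act2]
  change (top R n (((lef W ++ rig W).map (s R)).prod *
    algebraMap R (TR n) (LA (lef W) (TB (rig W)) 0)) * (-w) ^ (n + 1)).im = _
  rw [mul_comm ((lef W ++ rig W).map (s R)).prod, top_prod]

theorem G1_act (W : List (Fin n ⊕ Fin n)) :
    G1 n ((SM (CR n)).act (b1 n) W (1, 1)) =
      ((if (lef W ++ rig W).Perm (List.finRange n) then w ^ n * (cnt (lef W) (rig W) : R) else 0) *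
        (-w) ^ (n + 1)).im := by
  classical
  change (w ^ n * (∑ y, top R n (((SM (CR n)).act (b1 n) W (1, 1)).1 y)) * (-w) ^ (n + 1)).im = _
  have h : ∀ y, top R n (((SM (CR n)).act (b1 n) W (1, 1)).1 y) =
      if (∀ b ∈ rig W, y b = 0) ∧ chain 0 (lef W) y then
        (if (lef W ++ rig W).Perm (List.finRange n) then 1 else 0) else 0 := by
    intro y
    rw [act1]
    by_cases h1 : (∀ b ∈ rig W, y b = 0) ∧ chain 0 (lef W) y
    · rw [if_pos h1, if_pos h1]
      have := top_prod R 1 (lef W ++ rig W)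
      rwa [map_one, one_mul] at this
    · rw [if_neg h1, if_neg h1, map_zero]
  rw [Finset.sum_congr rfl (fun y _ => h y)]
  by_cases hp : (lef W ++ rig W).Perm (List.finRange n)
  · simp only [if_pos hp]
    congr 3
    rw [Finset.sum_boole, cnt]
  · simp only [if_neg hp, ite_self, Finset.sum_const_zero, mul_zero]

/-- **The congruence.** -/
theorem congr_words : GV (SM (CR n)) (SS2 n) (b1 n) (b2 n) (G1 n) (F2 n) (2 ^ (n + 1)) (1, 1)
    (fun _ => 1) := by
  intro W
  rw [F2_act, G1_act]
  by_cases hp : (lef W ++ rig W).Perm (List.finRange n)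
  · rw [if_pos hp, if_pos hp, ← Zsqrtd.im_sub, ← sub_mul]
    obtain ⟨z, hz⟩ := core hp
    rw [hz, mul_right_comm, ← mul_pow, show w * -w = 2 by rw [mul_neg, w_sq, neg_neg]]
    refine ⟨z.im, ?_⟩
    have : ((2 : R) ^ (n + 1)) = ((2 ^ (n + 1) : ℤ) : R) := by push_cast; rfl
    rw [this, Zsqrtd.im_mul, Zsqrtd.re_intCast, Zsqrtd.im_intCast, zero_mul, add_zero]
  · rw [if_neg hp, if_neg hp, sub_self]
    exact dvd_zero _

end MP6489b8.MD
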