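import Mathlib
import Pool.Agent.Lib.MP_6489b8_al.MD.Words

/-!
# The integral model: odd values of the forms
-/

namespace MP6489b8.MD

open MP6489b8 MP6489b8.AF

variable {n : ℕ}

/-- The words in the operators `P_a` applied to the constant function. -/
def PW : List (Fin n) → Vec n → R
  | [] => fun _ => 1
  | a :: xs => fun β => chi (β a) * PW xs (β + lo a)

theorem top_eq (xs : List (Fin n)) :
    LC.top (ge (s R)) (fun _ => (1 : TR n)) xs = (xs.map (s R)).prod • emb (PW xs) := by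
  induction xs with
  | nil =>
    change (fun _ => 1) = (1 : TR n) • emb (fun _ => 1)
    rw [one_smul, emb_one]
  | cons a xs ih =>
    rw [LC.top_cons, ih]
    change (s R a • P (TR n) a) _ = _
    rw [LinearMap.smul_apply, map_smul, List.map_cons, List.prod_cons]
    funext β
    simp only [Pi.smul_apply, smul_eq_mul, P_apply, emb, PW, map_mul, map_intCast]
    ring

theorem PW_sorted (xs : List (Fin n)) (h : xs.Pairwise (· < ·)) (β : Vec n)
    (hβ : ∀ a ∈ xs, β a = 0) : PW xs β = 1 := by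
  induction xs generalizing β with
  | nil => rfl
  | cons a xs ih =>
    rw [List.pairwise_cons] at h
    change (chi (β a) : R) * PW xs (β + lo a) = 1
    rw [hβ a List.mem_cons_self, ih h.2 (β + lo a) ?_, chi_zero]
    · simp
    · intro b hb
      rw [Pi.add_apply, hβ b (List.mem_cons_of_mem _ hb), lo, if_neg (not_lt.2 (h.1 b hb).le),
        add_zero]

theorem PW_finRange : PW (List.finRange n) (0 : Vec n) = 1 :=
  PW_sorted _ (List.pairwise_lt_finRange n) 0 (fun _ _ => rfl)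

/-- The value of the functional on a multiple of the top. -/
theorem F2_top (r : R) :
    F2 n (algebraMap R (TR n) r • LC.top (ge (s R)) (fun _ => (1 : TR n)) (List.finRange n)) =
      (r * (-w) ^ (n + 1)).im := by
  rw [top_eq]
  change (top R n (algebraMap R (TR n) r * (((List.finRange n).map (s R)).prod *
    algebraMap R (TR n) (PW (List.finRange n) 0))) * (-w) ^ (n + 1)).im = _
  rw [PW_finRange, map_one, mul_one, top_prod_perm R r (List.Perm.refl _)]

theorem neg_w_pow_even (j : ℕ) : (-w) ^ (2 * j) = (((-2) ^ j : ℤ) : R) := by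
  rw [pow_mul, neg_pow_two, w_pow_two]
  push_cast
  rfl

theorem im_even (r : R) (j : ℕ) : (r * (-w) ^ (2 * j)).im = (-2) ^ j * r.im := by
  rw [neg_w_pow_even, mul_comm, Zsqrtd.im_smul]

theorem im_odd (r : R) (j : ℕ) : (r * (-w) ^ (2 * j + 1)).im = -((-2) ^ j * r.re) := by
  rw [pow_succ, ← mul_assoc, mul_comm (r * _), ← mul_assoc, mul_comm (-w * r),
    neg_w_pow_even, Zsqrtd.im_smul]
  have : (-w * r).im = -r.re := by
    rw [Zsqrtd.im_mul]
    change (-0) * r.im + (-1) * r.re = -r.re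
    ring
  rw [this]
  ring

/-- The parity operator on the top elements of even length. -/
theorem eps_top (xs : List (Fin n)) :
    eps (TR n) n (LC.top (ge (s R)) (fun _ => (1 : TR n)) xs) =
      ((-1 : ℤ) ^ xs.length) • LC.top (ge (s R)) (fun _ => (1 : TR n)) xs := by
  induction xs with
  | nil =>
    change (fun _ => (1 : TR n)) = ((-1 : ℤ) ^ 0) • (fun _ => (1 : TR n))
    rw [pow_zero, one_smul]
  | cons a xs ih =>
    rw [LC.top_cons]
    change (eps (TR n) n * g (s R) a) _ = _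
    rw [eps_g, LinearMap.neg_apply]
    change -(g (s R) a (eps (TR n) n _)) = _
    rw [ih, map_zsmul, List.length_cons, pow_succ, mul_neg, mul_one, neg_smul]
    rfl

/-- The glued ring of the model. -/
noncomputable abbrev GlR (n : ℕ) := Gl (SM (CR n)) (SS2 n) (b1 n) (b2 n) (G1 n) (F2 n) (2 ^ (n + 1))

/-- The functional of the model. -/
noncomputable abbrev lR (n : ℕ) : GlR n →+ ℤ :=
  lG (SM (CR n)) (SS2 n) (b1 n) (b2 n) (G1 n) (F2 n) (2 ^ (n + 1))

/-- The argument list of the model. -/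
noncomputable abbrev xsR (n : ℕ) : List (GlR n) :=
  ll (SM (CR n)) (SS2 n) (b1 n) (b2 n) (G1 n) (F2 n) (2 ^ (n + 1)) (1, 1) (fun _ => 1) congr_words
    (List.finRange n)

theorem odd_pow_three (k : ℕ) : Odd (3 ^ (k + 1) : ℤ) := Odd.pow (by decide)

theorem odd_FL_R (k : ℕ) :
    Odd (lR (4 + 2 * k) (FL k (GlR (4 + 2 * k)) (xsR (4 + 2 * k)))) := by
  refine odd_FL_of _ k _ ?_
  have h1 := LC.FLS_zero (SM (CR (4 + 2 * k))) (b1 (4 + 2 * k)) (1, 1)
    (fun x y z w => SM_s4 _ x y z w _) k (List.finRange (4 + 2 * k)) (by simp)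
  have h2 := (S2_ext (s := s R (n := 4 + 2 * k)) wK_sq (s_mul_s R)).FLS_eq k
    (List.finRange (4 + 2 * k)) (by simp)
  have h3 := N_lG_FLS (congr_words (n := 4 + 2 * k)) k (List.finRange (4 + 2 * k)) h1 h2
  rw [map_zero, sub_zero, map_zsmul] at h3
  have h4 := F2_top (n := 4 + 2 * k) 1
  rw [map_one, one_smul, show 4 + 2 * k + 1 = 2 * (k + 2) + 1 by ring, im_odd] at h4
  rw [h4] at h3
  have h5 : (2 : ℤ) ^ (4 + 2 * k + 1) ≠ 0 := pow_ne_zero _ two_ne_zero
  have h6 : LC.Cf 2 k • -((-2) ^ (k + 2) * (1 : R).re) =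
      (2 : ℤ) ^ (4 + 2 * k + 1) * -(3 ^ (k + 1)) := by
    rw [LC.Cf, smul_eq_mul, show (1 : R).re = 1 from rfl,
      show (-3 * 2 : ℤ) ^ k = (-2) ^ k * 3 ^ k by rw [← mul_pow]; norm_num,
      show (2 : ℤ) ^ (4 + 2 * k + 1) = 2 ^ 5 * ((-2) ^ k * (-2) ^ k) by
        rw [← mul_pow, show 4 + 2 * k + 1 = 5 + 2 * k by ring, pow_add, pow_mul]; norm_num]
    ring
  rw [h6] at h3
  rw [mul_left_cancel₀ h5 h3]
  exact (odd_pow_three k).neg

theorem odd_XFL_R (k : ℕ) :
    Odd (lR (5 + 2 * k) (XFL k (GlR (5 + 2 * k)) (xsR (5 + 2 * k)))) := by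
  refine odd_of_cg _ (XFL_cg k _) ?_
  have h1 := LC.XLS_zero (SM (CR (5 + 2 * k))) (b1 (5 + 2 * k)) (1, 1)
    (fun x y z w => SM_s4 _ x y z w _) k (List.finRange (5 + 2 * k)) (by simp)
  have h0 := S2_ext (s := s R (n := 5 + 2 * k)) wK_sq (s_mul_s R)
  have h2 := (SS2 (5 + 2 * k)).XLS_val (b2 (5 + 2 * k)) (fun _ => 1) k
    (fun xs => LC.Cf 2 k • LC.top (ge (s R)) (fun _ => (1 : TR (5 + 2 * k))) xs)
    (fun xs => algebraMap R (TR (5 + 2 * k)) ((LC.Cf 2 k : ℤ) * (w - 2)) •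
      LC.top (ge (s R)) (fun _ => (1 : TR (5 + 2 * k))) xs) (h0.FLS_eq k) ?_
    (List.finRange (5 + 2 * k)) [] (by simp)
  · change XLS (fun t => FLS k (SS2 (5 + 2 * k)).Alg t) _ = _ at h2
    change XFLS k (SS2 (5 + 2 * k)).Alg _ = _ at h2
    have h3 := N_lG_of (congr_words (n := 5 + 2 * k)) (List.finRange (5 + 2 * k)) _ _ _
      (map_XFLS k _) (map_XFLS k _) h1 h2
    rw [map_zero, sub_zero, map_zsmul, List.nil_append] at h3
    have h4 := F2_top (n := 5 + 2 * k) ((LC.Cf 2 k : ℤ) * (w - 2))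
    have e : 5 + 2 * k + 1 = 2 * (k + 3) := by ring
    rw [e, im_even] at h4
    rw [h4] at h3
    have h5 : (2 : ℤ) ^ (5 + 2 * k + 1) ≠ 0 := pow_ne_zero _ two_ne_zero
    have h6 : (((List.finRange (5 + 2 * k)).length : ℤ) * (-1) ^ ([] : List (Fin (5 + 2 * k))).length) •
        ((-2) ^ (k + 3) * (((LC.Cf 2 k : ℤ) : R) * (w - 2)).im) =
        (2 : ℤ) ^ (5 + 2 * k + 1) * -((5 + 2 * k) * (3 ^ (k + 1))) := by
      rw [Zsqrtd.im_smul, List.length_finRange, LC.Cf, smul_eq_mul,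
        show (w - 2 : R).im = 1 from rfl,
        show (-3 * 2 : ℤ) ^ k = (-2) ^ k * 3 ^ k by rw [← mul_pow]; norm_num,
        show (2 : ℤ) ^ (5 + 2 * k + 1) = 2 ^ 6 * ((-2) ^ k * (-2) ^ k) by
          rw [← mul_pow, show 5 + 2 * k + 1 = 6 + 2 * k by ring, pow_add, pow_mul]; norm_num]
      simp only [List.length_nil, pow_zero]
      push_cast
      ring
    rw [h6] at h3
    rw [mul_left_cancel₀ h5 h3]
    have h7 : Odd (5 + 2 * (k : ℤ)) := ⟨k + 2, by ring⟩
    exact (h7.mul (odd_pow_three k)).neg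
  · intro ys z zs hl
    rw [S2_L, S2_t]
    have hm := h0.move z ys zs
    have he := eps_top (ys ++ zs)
    rw [List.length_append, hl, show 4 + 2 * k = 2 * (2 + k) by ring, pow_mul, neg_one_sq,
      one_pow, one_smul] at he
    have e1 : (P (TR (5 + 2 * k)) z * eps (TR (5 + 2 * k)) (5 + 2 * k))
        (LC.Cf 2 k • LC.top (ge (s R)) (fun _ => (1 : TR (5 + 2 * k))) (ys ++ zs)) =
        LC.Cf 2 k • P (TR (5 + 2 * k)) z
          (LC.top (ge (s R)) (fun _ => (1 : TR (5 + 2 * k))) (ys ++ zs)) := by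
      rw [Module.End.mul_apply, map_zsmul, he, map_zsmul]
    rw [e1, smul_comm ((-1 : ℤ) ^ ys.length), ← hm]
    change _ = _ • s R z • P (TR (5 + 2 * k)) z _
    have e2 : g (s R) z (LC.Cf 2 k • LC.top (ge (s R)) (fun _ => (1 : TR (5 + 2 * k))) (ys ++ zs)) =
        LC.Cf 2 k • s R z • P (TR (5 + 2 * k)) z
          (LC.top (ge (s R)) (fun _ => (1 : TR (5 + 2 * k))) (ys ++ zs)) := by
      rw [map_zsmul]; rfl
    rw [e2]
    funext β
    simp only [Pi.add_apply, Pi.sub_apply, Pi.smul_apply, smul_eq_mul, zsmul_eq_mul, map_mul,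
      map_sub, map_intCast, map_ofNat, wK, Pi.mul_apply, Pi.intCast_apply]
    ring

/-- **The integral model, even case.** -/
theorem model_FL (k : ℕ) : ∃ (A : Type) (_ : NonUnitalNonAssocRing A) (_ : IsAlt A) (l : A →+ ℤ)
    (xs : List A), xs.length = 5 + 2 * k ∧ Odd (l (FL k A xs)) :=
  ⟨GlR (4 + 2 * k), inferInstance, isAlt_Gl _ _ _ _ _ _ _, lR _, xsR _, by
    rw [ll_length, List.length_finRange]; ring, odd_FL_R k⟩

/-- **The integral model, odd case.** -/
theorem model_XFL (k : ℕ) : ∃ (A : Type) (_ : NonUnitalNonAssocRing A) (_ : IsAlt A) (l : A →+ ℤ)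
    (xs : List A), xs.length = 6 + 2 * k ∧ Odd (l (XFL k A xs)) :=
  ⟨GlR (5 + 2 * k), inferInstance, isAlt_Gl _ _ _ _ _ _ _, lR _, xsR _, by
    rw [ll_length, List.length_finRange]; ring, odd_XFL_R k⟩

end MP6489b8.MD
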